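import Mathlib
import Pool.Agent.N757.AS.Stm

/-!
# Project AS (helper757), leaf FLD: field of definition
-/

set_option autoImplicit false

namespace Pool.Agent.N608.AS.FLD

open Polynomial Pool.Agent.N757.AS

/-- transport of the data along a homomorphism of fields -/
theorem data_map {k K : Type} [Field k] [Field K] (φ : k →+* K) (p q : ℕ) (A B U : k[X]) :
    Data k p q A B U ↔ Data K p q (A.map φ) (B.map φ) (U.map φ) := by
  have hinj : Function.Injective (Polynomial.map φ) := Polynomial.map_injective φ φ.injective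
  unfold Data
  rw [Polynomial.natDegree_map, Polynomial.natDegree_map, Polynomial.natDegree_map,
    Polynomial.isCoprime_map]
  constructor
  · rintro ⟨h1, h2, h3, h4, h5, h6, h7⟩
    refine ⟨h1.map φ, h2.map φ, h3, h4, ?_, ?_, h7⟩
    · rwa [Polynomial.map_ne_zero_iff φ.injective]
    · have := congrArg (Polynomial.map φ) h6
      simpa using this
  · rintro ⟨h1, h2, h3, h4, h5, h6, h7⟩
    refine ⟨?_, ?_, h3, h4, ?_, ?_, h7⟩
    · exact (Function.Injective.monic_map_iff φ.injective).2 h1
    · exact (Function.Injective.monic_map_iff φ.injective).2 h2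
    · rwa [Polynomial.map_ne_zero_iff φ.injective] at h5
    · apply hinj
      simpa using h6

theorem t (h : StmData) : StmFld := by
  intro p q hp hq hpq
  obtain ⟨A, B, U, hD⟩ := h (AlgebraicClosure ℚ) p q hp hq hpq
  classical
  set S : Finset (AlgebraicClosure ℚ) := A.coeffs ∪ B.coeffs ∪ U.coeffs with hS
  set k := IntermediateField.adjoin ℚ (S : Set (AlgebraicClosure ℚ)) with hk
  have hfin : FiniteDimensional ℚ k :=
    IntermediateField.finiteDimensional_adjoin fun x _ => (AlgebraicClosure.isAlgebraic ℚ).isIntegral.isIntegral x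
  have hnf : NumberField k := { to_charZero := inferInstance, to_finiteDimensional := hfin }
  have hlift : ∀ Q : (AlgebraicClosure ℚ)[X], (∀ c ∈ Q.coeffs, c ∈ S) →
      ∃ Q' : k[X], Q'.map (algebraMap k (AlgebraicClosure ℚ)) = Q := by
    intro Q hQ
    have : Q ∈ Polynomial.lifts (algebraMap k (AlgebraicClosure ℚ)) := by
      rw [Polynomial.lifts_iff_coeff_lifts]
      intro n
      by_cases h0 : Q.coeff n = 0
      · exact ⟨0, by rw [h0, map_zero]⟩
      · have hmem : Q.coeff n ∈ S := hQ _ (Polynomial.coeff_mem_coeffs h0)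
        exact ⟨⟨Q.coeff n, IntermediateField.subset_adjoin ℚ _ hmem⟩, rfl⟩
    exact (Polynomial.mem_lifts _).1 this
  obtain ⟨A', hA⟩ := hlift A (fun c hc => by simp [hS, hc])
  obtain ⟨B', hB⟩ := hlift B (fun c hc => by simp [hS, hc])
  obtain ⟨U', hU⟩ := hlift U (fun c hc => by simp [hS, hc])
  have hD' : Data k p q A' B' U' := by
    rw [data_map (algebraMap k (AlgebraicClosure ℚ)), hA, hB, hU]
    exact hD
  refine ⟨k, inferInstance, hnf, ?_⟩
  intro K _ _ φ
  exact ⟨A'.map φ, B'.map φ, U'.map φ, (data_map φ p q A' B' U').1 hD'⟩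

end Pool.Agent.N608.AS.FLD
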